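import Mathlib

/-!
# A `t`-design whose spectrum of minimal defining set sizes has a hole

The block set of the fourteen planes of `AG(3,2)`, seen as a `2-(8,4,3)` design, has minimal
defining sets of sizes `6` and `8` only.  So its spectrum is `{6, 8}` and `7` is a hole.

The proof is a computation with bit masks.  `rows` lists the seventy `4`-subsets of the point set
(as an `8`-bit mask, a `28`-bit mask of the pairs it contains, and the union of the pair masks of
the later `4`-subsets).  Families of blocks are `70`-bit masks.  `mins` is the list of the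
`196` minimal defining sets and `comps` is a list of `56` designs meeting the given one in its
maximal proper intersections.
-/

set_option autoImplicit false

namespace Pool.Agent.Results.MP_13ec72_co.Hole

open Finset

/-! ### Definitions of the problem -/

/-- `B` is the block set of a (simple) `t-(v,k,lam)` design on the point set `V` (`v = |V|`):
every block has `k` points and every `t`-subset of points lies in exactly `lam` blocks. -/
def IsDesign {V : Type} [Fintype V] [DecidableEq V] (t k lam : ℕ)
    (B : Finset (Finset V)) : Prop :=
  (∀ b ∈ B, b.card = k) ∧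
    ∀ T : Finset V, T.card = t → (B.filter (fun b => T ⊆ b)).card = lam

/-- `S` is a defining set of the `t-(v,k,lam)` design `D`: `S ⊆ D`, and `D` is the only
`t-(v,k,lam)` design on the same point set whose block set contains `S`. -/
def IsDefiningSet {V : Type} [Fintype V] [DecidableEq V] (t k lam : ℕ)
    (D S : Finset (Finset V)) : Prop :=
  S ⊆ D ∧ ∀ E : Finset (Finset V), IsDesign t k lam E → S ⊆ E → E = D

/-- `S` is a minimal defining set of `D`: no proper subset of `S` is a defining set of `D`. -/
def IsMinimalDefiningSet {V : Type} [Fintype V] [DecidableEq V] (t k lam : ℕ)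
    (D S : Finset (Finset V)) : Prop :=
  IsDefiningSet t k lam D S ∧ ∀ S' : Finset (Finset V), S' ⊂ S → ¬ IsDefiningSet t k lam D S'

/-- The spectrum of `D`: the set of sizes of minimal defining sets of `D`. -/
def Spec {V : Type} [Fintype V] [DecidableEq V] (t k lam : ℕ) (D : Finset (Finset V)) : Set ℕ :=
  {m | ∃ S : Finset (Finset V), IsMinimalDefiningSet t k lam D S ∧ S.card = m}

/-- A set of natural numbers has a hole if some integer strictly between two of its members is not
a member. -/
def HasHole (A : Set ℕ) : Prop := ∃ a ∈ A, ∃ b ∈ A, ∃ m : ℕ, a < m ∧ m < b ∧ m ∉ A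

/-! ### Data -/

def rows : List (ℕ × ℕ × ℕ) := [
  (15, 8583, 268435455), (23, 17035, 268435455), (39, 33939, 268435455),
  (71, 67747, 268435455), (135, 135363, 268435455), (27, 262925, 268435455),
  (43, 525589, 268435455), (75, 1050917, 268435455), (139, 2101573, 268435455),
  (51, 4195865, 268435455), (83, 8391209, 268435455), (147, 16781897, 268435455),
  (99, 33557553, 268435455), (163, 67114065, 268435455), (195, 134223969, 268435454),
  (29, 286734, 268435454), (45, 565270, 268435454), (77, 1122342, 268435454),
  (141, 2236486, 268435454), (53, 4243482, 268435454), (85, 8470570, 268435454),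
  (149, 16924746, 268435454), (101, 33652786, 268435454), (165, 67272786, 268435454),
  (197, 134414434, 268435452), (57, 4980764, 268435452), (89, 9699372, 268435452),
  (153, 19136588, 268435452), (105, 35127348, 268435452), (169, 69730388, 268435452),
  (201, 137363556, 268435448), (113, 46137400, 268435448), (177, 88080472, 268435448),
  (209, 159383656, 268435440), (225, 234881136, 268435328), (30, 287616, 268435328),
  (46, 566656, 268435328), (78, 1124736, 268435328), (142, 2240896, 268435328),
  (54, 4245120, 268435328), (86, 8473216, 268435328), (150, 16929408, 268435328),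
  (102, 33655936, 268435328), (166, 67277952, 268435328), (198, 134420608, 268435200),
  (58, 4982528, 268435200), (90, 9702144, 268435200), (154, 19141376, 268435200),
  (106, 35130624, 268435200), (170, 69735680, 268435200), (202, 137369856, 268434944),
  (114, 46140928, 268434944), (178, 88086016, 268434944), (210, 159390208, 268434432),
  (226, 234888192, 268427264), (60, 5038080, 268427264), (92, 9789440, 268427264),
  (156, 19292160, 268427264), (108, 35233792, 268427264), (172, 69902336, 268427264),
  (204, 137568256, 268419072), (116, 46252032, 268419072), (180, 88260608, 268419072),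
  (212, 159596544, 268402688), (228, 235110400, 268173312), (120, 47972352, 268173312),
  (184, 90963968, 268173312), (216, 162791424, 267911168), (232, 238551040, 264241152),
  (240, 264241152, 0)
]

def dsg : ℕ := 591485400576510935553

def posD : List ℕ := [0, 9, 14, 20, 23, 27, 28, 41, 42, 46, 49, 55, 60, 69]

def comps : List ℕ := [
  590944968621234340353, 591485400576518792193, 77246380733292921345,
  591485400584965620488, 166057365380737024513, 591485400580663558180,
  304407945931284169217, 591485400578389065794, 42658735603535921665,
  591485400593414029968, 590728795839817335297, 591485400577215567873,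
  591485400576709116417, 599555849184612598274, 10417463657410609155,
  596061055633247519248, 5810281253635621393, 591593485318199724033,
  590476609654082243073, 593755210459377615368, 3513443236070818313,
  608779218884997956100, 19638581697568587781, 591737598307118108673,
  590620722643000627713, 590728807383984783873, 591485412121383016449,
  591485403875042673153, 591521394189157286913, 590405592197120394753,
  737906361430141321760, 148765724242711953441, 628342789592258265728,
  38092015212646367873, 42667670252479857153, 591494335242357965456,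
  591485469845677425153, 166059542547046351361, 591487577746972885028,
  591485608384010404353, 592025304766206205953, 590909502774169313793,
  665235785192962048768, 74994017969655251713, 296341436048711106625,
  885479821575913095744, 304411884654934639105, 591489339302039535682,
  591484984961511997953, 77263827844067246593, 591502847695739945736,
  591485123499844977153, 590945496386807808513, 591485928342092260353,
  591485189470479729153, 591485192768813285889
]

def mins : List ℕ := [
  76966224986112, 569547426889728, 635517998727168,
  637716887764992, 36035394491400192, 36101365063237632,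
  36596145154179072, 36662115726016512, 1152928102079267328,
  1152996271540142592, 1153486653853008384, 1153554823313883648,
  1188952500917518848, 1188954699806556672, 1189020670378394112,
  1189513251580297728, 590295882926749908993, 590295885125638946817,
  590296375507951812609, 590296377706840850433, 590331841355016323073,
  590331843553905360897, 590331909524477198337, 590332402105679101953,
  591448734062604190209, 591448736261493228033, 591448802232065065473,
  591449294813266969089, 76965957599745, 76966091833345,
  76966217662976, 569547166859265, 569547301061121,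
  569547434246656, 635517864526336, 635518124556801,
  635518131912705, 637717021999616, 637717147828225,
  637717155152385, 36035394224013825, 36035394365571585,
  36035394500821504, 36101364795851265, 36101365189067265,
  36101365198487553, 36596145028350465, 36596145421566465,
  36596145430986753, 36662115851846145, 36662115993403905,
  36662116128653824, 36668712795767296, 36668712921595905,
  36668713063153665, 36668713188983296, 1152928101819236865,
  1152928101946114561, 1152928102088720384, 1152996271406989825,
  1152996271800205825, 1152996271809626113, 1153486653592977921,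
  1153486653986193921, 1153486653995614209, 1153554823447069185,
  1153554823573946881, 1153554823716552704, 1153561420383666176,
  1153561420516818945, 1153561420643696641, 1153561420776882176,
  1188952500792738304, 1188952501052768769, 1188952501060124673,
  1188954699950211584, 1188954700076040193, 1188954700083364353,
  1189020670513644033, 1189020670647877633, 1189020670773707264,
  1189027267440820736, 1189027267573973505, 1189027267708207105,
  1189027267843457024, 1189513251722903553, 1189513251857105409,
  1189513251990290944, 1189519848657404416, 1189519848783233025,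
  1189519848917434881, 1189519849060040704, 1189585819347714561,
  1189585819355070465, 1189585819480900096, 1189585819490320384,
  1189588018370985985, 1189588018378310145, 1189588018638373376,
  1189588018647793664, 590295882926615708161, 590295882926742585857,
  590295882926885191680, 590295885125631623681, 590295885125773181441,
  590295885125908431360, 590296375507817611777, 590296375507959169537,
  590296375508094419456, 590296377706848207361, 590296377706975085057,
  590296377707117690880, 590296450274608300032, 590296450274615624192,
  590296450274742501888, 590296450274749857792, 590331841354891542529,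
  590331841355025744385, 590331841355158929920, 590331843553914782209,
  590331843554049015809, 590331843554174845440, 590331909524746682880,
  590331909524872511489, 590331909524879835649, 590331916121539624961,
  590331916121546949121, 590331916121807012352, 590331916121816432640,
  590332402105821708800, 590332402106081739265, 590332402106089095169,
  590332408702748852737, 590332408702756208641, 590332408702882038272,
  590332408702891458560, 590332474673453875712, 590332474673579704321,
  590332474673713906177, 590332474673856512000, 590332476872469791232,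
  590332476872602944001, 590332476872737177601, 590332476872872427520,
  591448734062479409665, 591448734062613643265, 591448734062739472896,
  591448736261502681089, 591448736261636882945, 591448736261770068480,
  591448802232200348160, 591448802232460378625, 591448802232467734529,
  591448808829127492097, 591448808829134848001, 591448808829260677632,
  591448808829270097920, 591449294813543809536, 591449294813669638145,
  591449294813676962305, 591449301410336751617, 591449301410344075777,
  591449301410604139008, 591449301410613559296, 591449367381034418688,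
  591449367381167571457, 591449367381301805057, 591449367381437054976,
  591449369580065014272, 591449369580190842881, 591449369580325044737,
  591449369580467650560, 591484767257536512000, 591484767257543836160,
  591484767257670713856, 591484767257678069760, 591484833228108349440,
  591484833228241502209, 591484833228368379905, 591484833228501565440,
  591484835427131589120, 591484835427257417729, 591484835427398975489,
  591484835427524805120, 591485325809317577216, 591485325809443405825,
  591485325809584963585, 591485325809710793216, 591485328008340848640,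
  591485328008474001409, 591485328008600879105, 591485328008734064640,
  591485393979164344320, 591485393979171668480, 591485393979298546176,
  591485393979305902080
]


def full : ℕ := 268435455

/-! ### The search -/

/-- Exhaustive search over the completions.  The state `(c1, c0)` holds, in binary, how often each
pair is covered so far. -/
noncomputable def search (L : List (ℕ × ℕ × ℕ × Bool)) : ℕ → ℕ → Bool → Bool :=
  List.rec (motive := fun _ => ℕ → ℕ → Bool → Bool) (fun _ _ diff => !diff)
    (fun e _ ih c1 c0 diff =>
      cond (cond (Nat.beq ((c1 &&& c0) ||| e.2.2.1) full)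
          (ih c1 c0 (cond e.2.2.2 true diff)) true)
        (cond (Nat.beq (c1 &&& (c0 &&& e.2.1)) 0)
          (cond (Nat.beq (((c1 ^^^ (c0 &&& e.2.1)) &&& (c0 ^^^ e.2.1)) ||| e.2.2.1) full)
            (ih (c1 ^^^ (c0 &&& e.2.1)) (c0 ^^^ e.2.1) (cond e.2.2.2 diff true)) true) true)
        false) L

lemma search_nil (c1 c0 : ℕ) (diff : Bool) : search [] c1 c0 diff = !diff := rfl

lemma search_cons (e : ℕ × ℕ × ℕ × Bool) (L : List (ℕ × ℕ × ℕ × Bool)) (c1 c0 : ℕ)
    (diff : Bool) : search (e :: L) c1 c0 diff =
      cond (cond (Nat.beq ((c1 &&& c0) ||| e.2.2.1) full)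
          (search L c1 c0 (cond e.2.2.2 true diff)) true)
        (cond (Nat.beq (c1 &&& (c0 &&& e.2.1)) 0)
          (cond (Nat.beq (((c1 ^^^ (c0 &&& e.2.1)) &&& (c0 ^^^ e.2.1)) ||| e.2.2.1) full)
            (search L (c1 ^^^ (c0 &&& e.2.1)) (c0 ^^^ e.2.1) (cond e.2.2.2 diff true)) true) true)
        false := rfl

def commit : List (ℕ × ℕ × ℕ) → ℕ → ℕ → ℕ → ℕ × ℕ
  | [], _, c1, c0 => (c1, c0)
  | e :: L, S, c1, c0 =>
    bif S.testBit 0 then commit L (S / 2) (c1 ^^^ (c0 &&& e.2.1)) (c0 ^^^ e.2.1)
    else commit L (S / 2) c1 c0

def prep : List (ℕ × ℕ × ℕ) → ℕ → ℕ → List (ℕ × ℕ × ℕ × Bool)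
  | [], _, _ => []
  | e :: L, S, D =>
    bif S.testBit 0 then prep L (S / 2) (D / 2)
    else (e.1, e.2.1, e.2.2, D.testBit 0) :: prep L (S / 2) (D / 2)

noncomputable def runSearch (S : ℕ) : Bool :=
  search (prep rows S dsg) (commit rows S 0 0).1 (commit rows S 0 0).2 false

/-- The bit-level step. -/
lemma step_bits (c1 c0 w : Bool) (n : ℕ)
    (h : 2 * c1.toNat + c0.toNat + (n + w.toNat) = 3) :
    2 * (c1 ^^ (c0 && w)).toNat + (c0 ^^ w).toNat + n = 3 ∧ (c1 && (c0 && w)) = false := by
  revert h
  cases c1 <;> cases c0 <;> cases w <;> simp <;> omega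

lemma testBit_high {n p : ℕ} (hn : n < 2 ^ 28) (hp : 28 ≤ p) : n.testBit p = false :=
  Nat.testBit_lt_two_pow (lt_of_lt_of_le hn (Nat.pow_le_pow_right (by norm_num) hp))

lemma full_testBit (p : ℕ) : full.testBit p = decide (p < 28) := by
  have : full = 2 ^ 28 - 1 := by decide
  rw [this, Nat.testBit_two_pow_sub_one]

theorem search_sound (y : ℕ → Bool) : ∀ (L : List (ℕ × ℕ × ℕ × Bool)) (c1 c0 : ℕ) (diff : Bool),
    c1 < 2 ^ 28 → c0 < 2 ^ 28 → (∀ e ∈ L, e.2.1 < 2 ^ 28 ∧ e.2.2.1 < 2 ^ 28) →
    L.Pairwise (fun e e' => e'.2.1 &&& e.2.2.1 = e'.2.1) →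
    (∀ p < 28, 2 * (c1.testBit p).toNat + (c0.testBit p).toNat +
      L.countP (fun e => y e.1 && e.2.1.testBit p) = 3) →
    search L c1 c0 diff = true → diff = false ∧ ∀ e ∈ L, y e.1 = e.2.2.2 := by
  intro L
  induction L with
  | nil =>
    intro c1 c0 diff _ _ _ _ _ h
    rw [search_nil] at h
    simpa using h
  | cons e L ih =>
    intro c1 c0 diff h1 h0 hb hpw hcnt hs
    obtain ⟨m, w, r, d⟩ := e
    rw [List.pairwise_cons] at hpw
    obtain ⟨hr, hpw⟩ := hpw
    have hb' : ∀ e ∈ L, e.2.1 < 2 ^ 28 ∧ e.2.2.1 < 2 ^ 28 := fun e he => hb e (List.mem_cons_of_mem _ he)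
    have hw : w < 2 ^ 28 := (hb _ List.mem_cons_self).1
    have hrr : r < 2 ^ 28 := (hb _ List.mem_cons_self).2
    have hzero : ∀ p, r.testBit p = false → L.countP (fun e => y e.1 && e.2.1.testBit p) = 0 := by
      intro p hp
      rw [List.countP_eq_zero]
      intro e he
      have := congrArg (fun n => n.testBit p) (hr e he)
      simp only [Nat.testBit_and] at this
      rw [hp, Bool.and_false] at this
      simp [← this]
    have hfull : ∀ a b : ℕ, a < 2 ^ 28 → b < 2 ^ 28 →
        (∀ p < 28, 2 * (a.testBit p).toNat + (b.testBit p).toNat +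
          L.countP (fun e => y e.1 && e.2.1.testBit p) = 3) →
        Nat.beq ((a &&& b) ||| r) full = true := by
      intro a b ha hb2 hc
      rw [Nat.beq_eq]
      apply Nat.eq_of_testBit_eq
      intro p
      rw [full_testBit, Nat.testBit_or, Nat.testBit_and]
      by_cases hp : p < 28
      · have := hc p hp
        rcases hrp : r.testBit p with _ | _
        · rw [hzero p hrp] at this
          revert this
          cases a.testBit p <;> cases b.testBit p <;> simp [hp]
        · simp [hp]
      · rw [testBit_high ha (by omega), testBit_high hb2 (by omega), testBit_high hrr (by omega)]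
        simp [hp]
    rw [search_cons] at hs
    rcases hy : y m with _ | _
    · -- the block is not chosen
      have hc : ∀ p < 28, 2 * (c1.testBit p).toNat + (c0.testBit p).toNat +
          L.countP (fun e => y e.1 && e.2.1.testBit p) = 3 := by
        intro p hp
        have := hcnt p hp
        rw [List.countP_cons] at this
        simpa [hy] using this
      have h2 : search L c1 c0 (cond d true diff) = true := by
        have h3 := hfull c1 c0 h1 h0 hc
        simp only at hs
        rw [h3] at hs
        revert hs
        cases search L c1 c0 (cond d true diff) <;> simp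
      obtain ⟨h4, h5⟩ := ih c1 c0 _ h1 h0 hb' hpw hc h2
      have hd : d = false ∧ diff = false := by
        revert h4; cases d <;> cases diff <;> simp
      refine ⟨hd.2, ?_⟩
      intro e he
      rcases List.mem_cons.1 he with rfl | he
      · simp [hy, hd.1]
      · exact h5 e he
    · -- the block is chosen
      have hstep : ∀ p < 28,
          2 * ((c1 ^^^ (c0 &&& w)).testBit p).toNat + ((c0 ^^^ w).testBit p).toNat +
          L.countP (fun e => y e.1 && e.2.1.testBit p) = 3 ∧
          (c1 &&& (c0 &&& w)).testBit p = false := by
        intro p hp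
        have := hcnt p hp
        rw [List.countP_cons] at this
        have h2 : (if (y m && w.testBit p) = true then 1 else 0) = (w.testBit p).toNat := by
          rw [hy]; cases w.testBit p <;> simp
        simp only at this
        rw [h2] at this
        have := step_bits _ _ _ _ this
        simpa [Nat.testBit_xor, Nat.testBit_and] using this
      have ha : c1 ^^^ (c0 &&& w) < 2 ^ 28 :=
        Nat.xor_lt_two_pow h1 (Nat.and_lt_two_pow _ hw)
      have hbb : c0 ^^^ w < 2 ^ 28 := Nat.xor_lt_two_pow h0 hw
      have hz : Nat.beq (c1 &&& (c0 &&& w)) 0 = true := by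
        rw [Nat.beq_eq]
        apply Nat.eq_of_testBit_eq
        intro p
        by_cases hp : p < 28
        · rw [(hstep p hp).2]; simp
        · rw [Nat.testBit_and, testBit_high h1 (by omega)]; simp
      have hc : ∀ p < 28, 2 * ((c1 ^^^ (c0 &&& w)).testBit p).toNat +
          ((c0 ^^^ w).testBit p).toNat +
          L.countP (fun e => y e.1 && e.2.1.testBit p) = 3 := fun p hp => (hstep p hp).1
      have h2 : search L (c1 ^^^ (c0 &&& w)) (c0 ^^^ w) (cond d diff true) = true := by
        have h3 := hfull _ _ ha hbb hc
        simp only at hs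
        rw [h3, hz] at hs
        revert hs
        cases search L (c1 ^^^ (c0 &&& w)) (c0 ^^^ w) (cond d diff true)
        · simp only [cond_true]
          intro hs
          generalize (bif ((c1 &&& c0) ||| r).beq full then search L c1 c0 (bif d then true else diff)
            else true) = z at hs
          cases z <;> simp at hs
        · simp
      obtain ⟨h4, h5⟩ := ih _ _ _ ha hbb hb' hpw hc h2
      have hd : d = true ∧ diff = false := by
        revert h4; cases d <;> cases diff <;> simp
      refine ⟨hd.2, ?_⟩
      intro e he
      rcases List.mem_cons.1 he with rfl | he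
      · simp [hy, hd.1]
      · exact h5 e he

theorem commit_sound (y : ℕ → Bool) : ∀ (R : List (ℕ × ℕ × ℕ)) (S D c1 c0 : ℕ) (rest : ℕ → ℕ),
    c1 < 2 ^ 28 → c0 < 2 ^ 28 → (∀ e ∈ R, e.2.1 < 2 ^ 28) →
    (∀ i e, R[i]? = some e → S.testBit i = true → y e.1 = true) →
    (∀ p < 28, 2 * (c1.testBit p).toNat + (c0.testBit p).toNat +
      (R.countP (fun e => y e.1 && e.2.1.testBit p) + rest p) = 3) →
    (commit R S c1 c0).1 < 2 ^ 28 ∧ (commit R S c1 c0).2 < 2 ^ 28 ∧
    ∀ p < 28, 2 * ((commit R S c1 c0).1.testBit p).toNat +
      ((commit R S c1 c0).2.testBit p).toNat +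
      ((prep R S D).countP (fun e => y e.1 && e.2.1.testBit p) + rest p) = 3 := by
  intro R
  induction R with
  | nil =>
    intro S D c1 c0 rest h1 h0 _ _ hc
    exact ⟨h1, h0, by simpa [commit, prep] using hc⟩
  | cons e R ih =>
    intro S D c1 c0 rest h1 h0 hb hS hc
    have hb' : ∀ e ∈ R, e.2.1 < 2 ^ 28 := fun e he => hb e (List.mem_cons_of_mem _ he)
    have hw : e.2.1 < 2 ^ 28 := hb _ List.mem_cons_self
    have hS' : ∀ i e, R[i]? = some e → (S / 2).testBit i = true → y e.1 = true := by
      intro i e' he' hi
      apply hS (i + 1) e'
      · simpa using he'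
      · rw [Nat.testBit_succ]; exact hi
    rcases h : S.testBit 0 with _ | _
    · simp only [commit, prep, h, cond_false]
      have := ih (S / 2) (D / 2) c1 c0
        (fun p => rest p + (if (y e.1 && e.2.1.testBit p) = true then 1 else 0)) h1 h0 hb' hS' (by
          intro p hp
          have := hc p hp
          rw [List.countP_cons] at this
          omega)
      refine ⟨this.1, this.2.1, fun p hp => ?_⟩
      have h3 := this.2.2 p hp
      rw [List.countP_cons]
      simp only at h3 ⊢
      omega
    · simp only [commit, prep, h, cond_true]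
      have hy : y e.1 = true := hS 0 e (by simp) h
      apply ih (S / 2) (D / 2)
      · exact Nat.xor_lt_two_pow h1 (Nat.and_lt_two_pow _ hw)
      · exact Nat.xor_lt_two_pow h0 hw
      · exact hb'
      · exact hS'
      · intro p hp
        have := hc p hp
        rw [List.countP_cons] at this
        have h2 : (if (y e.1 && e.2.1.testBit p) = true then 1 else 0) = (e.2.1.testBit p).toNat := by
          rw [hy]; cases e.2.1.testBit p <;> simp
        rw [h2] at this
        have h4 := step_bits (c1.testBit p) (c0.testBit p) (e.2.1.testBit p)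
          (R.countP (fun e => y e.1 && e.2.1.testBit p) + rest p) (by omega)
        have h5 := h4.1
        rw [Nat.testBit_xor, Nat.testBit_and, Nat.testBit_xor]
        exact h5

lemma prep_mem : ∀ (R : List (ℕ × ℕ × ℕ)) (S D i : ℕ) (e : ℕ × ℕ × ℕ), R[i]? = some e →
    S.testBit i = false → (e.1, e.2.1, e.2.2, D.testBit i) ∈ prep R S D := by
  intro R
  induction R with
  | nil => intro S D i e h; simp at h
  | cons a R ih =>
    intro S D i e he hi
    cases i with
    | zero =>
      simp only [List.getElem?_cons_zero, Option.some.injEq] at he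
      subst he
      simp only [prep, hi, cond_false]
      exact List.mem_cons_self
    | succ i =>
      rw [List.getElem?_cons_succ] at he
      rw [Nat.testBit_succ] at hi ⊢
      have := ih (S / 2) (D / 2) i e he hi
      simp only [prep]
      cases S.testBit 0
      · simp only [cond_false]; exact List.mem_cons_of_mem _ this
      · simp only [cond_true]; exact this

lemma prep_sub : ∀ (R : List (ℕ × ℕ × ℕ)) (S D : ℕ),
    ((prep R S D).map (fun e => (e.1, e.2.1, e.2.2.1))).Sublist R := by
  intro R
  induction R with
  | nil => intro S D; simp [prep]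
  | cons a R ih =>
    intro S D
    simp only [prep]
    cases S.testBit 0
    · simp only [cond_false, List.map_cons]
      exact List.Sublist.cons_cons _ (ih _ _)
    · simp only [cond_true]
      exact List.Sublist.cons _ (ih _ _)

/-! ### Masks and sets -/

/-- The set of points of a mask. -/
def toSet (m : ℕ) : Finset (Fin 8) := univ.filter (fun p => m.testBit p.val = true)

/-- The pairs of points. -/
def pairs : List (Fin 8 × Fin 8) :=
  ((List.finRange 8).flatMap fun i => (List.finRange 8).map fun j => (i, j)).filter
    (fun x => x.1 < x.2)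

/-- The family of blocks of a mask. -/
def fam (M : ℕ) : Finset (Finset (Fin 8)) :=
  ((rows.zipIdx.filter (fun e => M.testBit e.2)).map (fun e => toSet e.1.1)).toFinset

set_option maxRecDepth 100000

lemma rows_nodup : (rows.map (fun e => toSet e.1)).Nodup := by decide +kernel

lemma rows_all : ∀ b : Finset (Fin 8), b.card = 4 → b ∈ rows.map (fun e => toSet e.1) := by
  decide +kernel

lemma rows_card : ∀ e ∈ rows, (toSet e.1).card = 4 := by decide +kernel

lemma rows_bound : ∀ e ∈ rows, e.2.1 < 2 ^ 28 ∧ e.2.2 < 2 ^ 28 := by decide +kernel

lemma rows_pw : rows.Pairwise (fun e e' => e'.2.1 &&& e.2.2 = e'.2.1) := by decide +kernel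

lemma rows_pairs : ∀ e ∈ rows, ∀ x ∈ pairs.zipIdx,
    (e.2.1.testBit x.2 = true ↔ x.1.1 ∈ toSet e.1 ∧ x.1.2 ∈ toSet e.1) := by decide +kernel

lemma pairs_all : ∀ T : Finset (Fin 8), T.card = 2 → ∃ x ∈ pairs.zipIdx, T = {x.1.1, x.1.2} := by
  decide +kernel

lemma pairs_ne : ∀ x ∈ pairs.zipIdx, x.1.1 ≠ x.1.2 ∧ x.2 < 28 := by decide +kernel

lemma pairs_get : ∀ p < 28, ∃ x ∈ pairs.zipIdx, x.2 = p := by decide +kernel

lemma rows_length : rows.length = 70 := by decide +kernel

lemma K4 : ∀ m ∈ mins, m &&& dsg = m := by decide +kernel

theorem K1 : mins.all runSearch = true := by decide +kernel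


/-! ### Families -/

lemma row_nodup_sub {L : List (ℕ × ℕ × ℕ)} (h : L.Sublist rows) :
    (L.map (fun e => toSet e.1)).Nodup :=
  (h.map _).nodup rows_nodup

lemma mem_fam {M : ℕ} {b : Finset (Fin 8)} :
    b ∈ fam M ↔ ∃ i e, rows[i]? = some e ∧ M.testBit i = true ∧ toSet e.1 = b := by
  unfold fam
  rw [List.mem_toFinset, List.mem_map]
  constructor
  · rintro ⟨⟨e, i⟩, h, rfl⟩
    rw [List.mem_filter, List.mk_mem_zipIdx_iff_getElem?] at h
    exact ⟨i, e, h.1, h.2, rfl⟩
  · rintro ⟨i, e, h1, h2, rfl⟩
    exact ⟨(e, i), by rw [List.mem_filter, List.mk_mem_zipIdx_iff_getElem?]; exact ⟨h1, h2⟩, rfl⟩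

lemma row_inj {i j : ℕ} {e e' : ℕ × ℕ × ℕ} (hi : rows[i]? = some e) (hj : rows[j]? = some e')
    (h : toSet e.1 = toSet e'.1) : i = j := by
  have h1 : (rows.map (fun e => toSet e.1))[i]? = (rows.map (fun e => toSet e.1))[j]? := by
    rw [List.getElem?_map, List.getElem?_map, hi, hj]
    simp [h]
  have h2 : i < (rows.map (fun e => toSet e.1)).length := by
    rw [List.length_map]
    exact (List.getElem?_eq_some_iff.1 hi).1
  exact (List.getElem?_inj h2 rows_nodup).1 h1

lemma toSet_mem_fam {M i : ℕ} {e : ℕ × ℕ × ℕ} (h : rows[i]? = some e) :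
    toSet e.1 ∈ fam M ↔ M.testBit i = true := by
  rw [mem_fam]
  constructor
  · rintro ⟨j, e', hj, hM, he⟩
    rw [row_inj h hj he.symm]
    exact hM
  · intro hM
    exact ⟨i, e, h, hM, rfl⟩

/-- The number of blocks of `E` through a pair, as a count over `rows`. -/
lemma card_eq_countP {E : Finset (Finset (Fin 8))} (hE : ∀ b ∈ E, b.card = 4)
    {x : (Fin 8 × Fin 8) × ℕ} (hx : x ∈ pairs.zipIdx) :
    (E.filter (fun b => {x.1.1, x.1.2} ⊆ b)).card =
      rows.countP (fun e => decide (toSet e.1 ∈ E) && e.2.1.testBit x.2) := by
  have h1 : E.filter (fun b => {x.1.1, x.1.2} ⊆ b) =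
      ((rows.filter (fun e => decide (toSet e.1 ∈ E) && e.2.1.testBit x.2)).map
        (fun e => toSet e.1)).toFinset := by
    ext b
    rw [mem_filter, List.mem_toFinset, List.mem_map]
    constructor
    · rintro ⟨hb, hs⟩
      obtain ⟨e, he, rfl⟩ := List.mem_map.1 (rows_all b (hE b hb))
      refine ⟨e, ?_, rfl⟩
      rw [List.mem_filter]
      refine ⟨he, ?_⟩
      simp only [Bool.and_eq_true, decide_eq_true_eq]
      refine ⟨hb, (rows_pairs e he x hx).2 ⟨hs (by simp), hs (by simp)⟩⟩
    · rintro ⟨e, he, rfl⟩
      rw [List.mem_filter] at he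
      simp only [Bool.and_eq_true, decide_eq_true_eq] at he
      refine ⟨he.2.1, ?_⟩
      have := (rows_pairs e he.1 x hx).1 he.2.2
      intro z hz
      rw [mem_insert, mem_singleton] at hz
      rcases hz with rfl | rfl
      · exact this.1
      · exact this.2
  rw [h1, List.toFinset_card_of_nodup (row_nodup_sub List.filter_sublist), List.length_map,
    List.countP_eq_length_filter]

/-- Counting with masks. -/
def cntM : List (ℕ × ℕ × ℕ) → ℕ → ℕ → ℕ
  | [], _, _ => 0
  | e :: L, M, p => (bif M.testBit 0 && e.2.1.testBit p then 1 else 0) + cntM L (M / 2) p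

lemma countP_eq_cntM (y : ℕ → Bool) : ∀ (R : List (ℕ × ℕ × ℕ)) (M p : ℕ),
    (∀ i e, R[i]? = some e → y e.1 = M.testBit i) →
    R.countP (fun e => y e.1 && e.2.1.testBit p) = cntM R M p := by
  intro R
  induction R with
  | nil => intro M p _; rfl
  | cons e R ih =>
    intro M p h
    rw [List.countP_cons, cntM, ih (M / 2) p (by
      intro i e' he'
      rw [h (i + 1) e' (by simpa using he'), Nat.testBit_succ]), h 0 e (by simp)]
    cases M.testBit 0 && e.2.1.testBit p <;> simp [add_comm]

/-- A fast check that a mask covers each pair exactly three times. -/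
def chk : List (ℕ × ℕ × ℕ) → ℕ → ℕ → ℕ → Bool
  | [], _, c1, c0 => Nat.beq c1 full && Nat.beq c0 full
  | e :: L, M, c1, c0 =>
    bif M.testBit 0 then
      Nat.beq (c1 &&& (c0 &&& e.2.1)) 0 && chk L (M / 2) (c1 ^^^ (c0 &&& e.2.1)) (c0 ^^^ e.2.1)
    else chk L (M / 2) c1 c0

lemma step_bits_rev (c1 c0 w : Bool) (n : ℕ)
    (h : 2 * (c1 ^^ (c0 && w)).toNat + (c0 ^^ w).toNat + n = 3)
    (h2 : (c1 && (c0 && w)) = false) :
    2 * c1.toNat + c0.toNat + ((bif w then 1 else 0) + n) = 3 := by
  revert h h2
  cases c1 <;> cases c0 <;> cases w <;> simp <;> omega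

lemma chk_sound : ∀ (L : List (ℕ × ℕ × ℕ)) (M c1 c0 : ℕ), chk L M c1 c0 = true →
    ∀ p < 28, 2 * (c1.testBit p).toNat + (c0.testBit p).toNat + cntM L M p = 3 := by
  intro L
  induction L with
  | nil =>
    intro M c1 c0 h p hp
    simp only [chk, Bool.and_eq_true, Nat.beq_eq] at h
    rw [h.1, h.2, full_testBit]
    simp [hp, cntM]
  | cons e L ih =>
    intro M c1 c0 h p hp
    rw [cntM]
    rcases hM : M.testBit 0 with _ | _
    · simp only [chk, hM, cond_false] at h
      have := ih _ _ _ h p hp
      simpa using this
    · simp only [chk, hM, cond_true, Bool.and_eq_true, Nat.beq_eq] at h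
      have h1 := ih _ _ _ h.2 p hp
      have h2 := congrArg (fun n => n.testBit p) h.1
      simp only [Nat.testBit_and, Nat.zero_testBit] at h2
      rw [Nat.testBit_xor, Nat.testBit_and, Nat.testBit_xor] at h1
      have := step_bits_rev _ _ _ _ h1 h2
      simpa using this

/-- A family of blocks given by a mask is a design as soon as the mask counts are right. -/
lemma fam_isDesign {M : ℕ} (h : chk rows M 0 0 = true) :
    IsDesign 2 4 3 (fam M) := by
  have h4 : ∀ b ∈ fam M, b.card = 4 := by
    intro b hb
    obtain ⟨i, e, he, _, rfl⟩ := mem_fam.1 hb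
    exact rows_card e (List.mem_of_getElem? he)
  refine ⟨h4, ?_⟩
  intro T hT
  obtain ⟨x, hx, rfl⟩ := pairs_all T hT
  rw [card_eq_countP h4 hx]
  rw [countP_eq_cntM (fun m => decide (toSet m ∈ fam M)) rows M x.2 (by
    intro i e he
    rw [Bool.eq_iff_iff, decide_eq_true_eq]
    exact toSet_mem_fam he)]
  have := chk_sound rows M 0 0 h x.2 (pairs_ne x hx).2
  simpa using this

/-- If the search succeeds then the family of the mask is a defining set. -/
lemma defining_of_search {S : ℕ} (hS : S &&& dsg = S) (h : runSearch S = true)
    (E : Finset (Finset (Fin 8))) (hE : IsDesign 2 4 3 E) (hSE : fam S ⊆ E) : E = fam dsg := by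
  set y : ℕ → Bool := fun m => decide (toSet m ∈ E) with hy
  have hSy : ∀ i e, rows[i]? = some e → S.testBit i = true → y e.1 = true := by
    intro i e he hi
    rw [hy]
    simp only [decide_eq_true_eq]
    exact hSE ((toSet_mem_fam he).2 hi)
  have hcnt : ∀ p < 28, 2 * ((0 : ℕ).testBit p).toNat + ((0 : ℕ).testBit p).toNat +
      (rows.countP (fun e => y e.1 && e.2.1.testBit p) + 0) = 3 := by
    intro p hp
    obtain ⟨x, hx, rfl⟩ := pairs_get p hp
    rw [← card_eq_countP hE.1 hx, hE.2 _ (card_pair (pairs_ne x hx).1)]
    simp
  have hb : ∀ e ∈ rows, e.2.1 < 2 ^ 28 := fun e he => (rows_bound e he).1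
  obtain ⟨k1, k2, k3⟩ := commit_sound y rows S dsg 0 0 (fun _ => 0) (by norm_num) (by norm_num) hb
    hSy hcnt
  have hsub := prep_sub rows S dsg
  have hpre : ∀ e ∈ prep rows S dsg, (e.1, e.2.1, e.2.2.1) ∈ rows := by
    intro e he
    exact hsub.subset (List.mem_map.2 ⟨e, he, rfl⟩)
  have hpw : (prep rows S dsg).Pairwise (fun e e' => e'.2.1 &&& e.2.2.1 = e'.2.1) := by
    have := rows_pw.sublist hsub
    rw [List.pairwise_map] at this
    exact this
  obtain ⟨-, hfin⟩ := search_sound y (prep rows S dsg) _ _ false k1 k2
    (fun e he => rows_bound _ (hpre e he)) hpw k3 h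
  have key : ∀ i e, rows[i]? = some e → (toSet e.1 ∈ E ↔ dsg.testBit i = true) := by
    intro i e he
    rcases hi : S.testBit i with _ | _
    · have := hfin _ (prep_mem rows S dsg i e he hi)
      simp only [hy] at this
      rw [← this, decide_eq_true_eq]
    · have h1 := hSy i e he hi
      simp only [hy, decide_eq_true_eq] at h1
      have h2 := congrArg (fun n => n.testBit i) hS
      simp only [Nat.testBit_and, hi, Bool.true_and] at h2
      simp [h1, h2]
  ext b
  constructor
  · intro hb
    obtain ⟨e, he, rfl⟩ := List.mem_map.1 (rows_all b (hE.1 b hb))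
    obtain ⟨i, hi, he'⟩ := List.mem_iff_getElem.1 he
    have he2 : rows[i]? = some e := by rw [List.getElem?_eq_getElem hi, he']
    exact (toSet_mem_fam he2).2 ((key i e he2).1 hb)
  · intro hb
    obtain ⟨i, e, he, hM, rfl⟩ := mem_fam.1 hb
    exact (key i e he).2 hM

lemma fam_subset {A B : ℕ} (h : A &&& B = A) : fam A ⊆ fam B := by
  intro b hb
  obtain ⟨i, e, he, hA, rfl⟩ := mem_fam.1 hb
  have := congrArg (fun n => n.testBit i) h
  simp only [Nat.testBit_and, hA, Bool.true_and] at this
  exact (toSet_mem_fam he).2 this

lemma card_fam (M : ℕ) : (fam M).card = (rows.zipIdx.filter (fun e => M.testBit e.2)).length := by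
  unfold fam
  rw [List.toFinset_card_of_nodup, List.length_map]
  have h1 : (rows.zipIdx.filter (fun e => M.testBit e.2)).map (fun e => toSet e.1.1) =
      ((rows.zipIdx.filter (fun e => M.testBit e.2)).map Prod.fst).map (fun e => toSet e.1) := by
    rw [List.map_map]; rfl
  rw [h1]
  apply row_nodup_sub
  have h2 : (rows.zipIdx.map Prod.fst) = rows := by
    rw [List.zipIdx_map_fst]
  conv_rhs => rw [← h2]
  exact List.filter_sublist.map _

/-! ### The finite checks -/

lemma dsg_design : IsDesign 2 4 3 (fam dsg) := fam_isDesign (by decide +kernel)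

lemma comps_design : ∀ c ∈ comps, IsDesign 2 4 3 (fam c) := by
  intro c hc
  apply fam_isDesign
  revert c
  have : comps.all (fun c => chk rows c 0 0) = true := by
    decide +kernel
  exact List.all_eq_true.1 this

lemma comps_ne : ∀ c ∈ comps, fam c ≠ fam dsg := by
  intro c hc heq
  have h1 : comps.all (fun c => (List.range 70).any (fun i => c.testBit i != dsg.testBit i)) = true := by
    decide +kernel
  have h2 := List.all_eq_true.1 h1 c hc
  obtain ⟨i, hi, hne⟩ := List.any_eq_true.1 h2
  have hi' : i < rows.length := by rw [rows_length]; exact List.mem_range.1 hi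
  have he : rows[i]? = some rows[i] := List.getElem?_eq_getElem hi'
  have h3 : c.testBit i = dsg.testBit i := by
    rw [Bool.eq_iff_iff, ← toSet_mem_fam he, ← toSet_mem_fam he, heq]
  rw [h3] at hne
  simp at hne

lemma mins_defining : ∀ m ∈ mins, IsDefiningSet 2 4 3 (fam dsg) (fam m) := by
  intro m hm
  exact ⟨fam_subset (K4 m hm), fun E hE hSE =>
    defining_of_search (K4 m hm) (List.all_eq_true.1 K1 m hm) E hE hSE⟩

/-- The test of the dichotomy, along all subsets of a list of positions: `A` holds the designs of
`comps` that contain all the positions chosen so far, `B` the members of `mins` that contain none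
of the positions left out so far. -/
def allSub : List ℕ → List ℕ → List ℕ → Bool
  | [], A, B => !A.isEmpty || !B.isEmpty
  | p :: L, A, B => allSub L A (B.filter (fun m => !m.testBit p)) &&
      allSub L (A.filter (fun c => c.testBit p)) B

lemma allSub_sound (y : ℕ → Bool) : ∀ (L A B : List ℕ), allSub L A B = true →
    (∃ c ∈ A, ∀ p ∈ L, y p = true → c.testBit p = true) ∨
    (∃ m ∈ B, ∀ p ∈ L, m.testBit p = true → y p = true) := by
  intro L
  induction L with
  | nil =>
    intro A B h
    simp only [allSub, Bool.or_eq_true, Bool.not_eq_true', List.isEmpty_eq_false_iff_exists_mem] at h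
    rcases h with ⟨c, hc⟩ | ⟨m, hm⟩
    · exact Or.inl ⟨c, hc, by simp⟩
    · exact Or.inr ⟨m, hm, by simp⟩
  | cons p L ih =>
    intro A B h
    simp only [allSub, Bool.and_eq_true] at h
    rcases hy : y p with _ | _
    · rcases ih _ _ h.1 with ⟨c, hc, h1⟩ | ⟨m, hm, h1⟩
      · refine Or.inl ⟨c, hc, fun q hq hyq => ?_⟩
        rcases List.mem_cons.1 hq with rfl | hq
        · rw [hy] at hyq; cases hyq
        · exact h1 q hq hyq
      · rw [List.mem_filter] at hm
        refine Or.inr ⟨m, hm.1, fun q hq hmq => ?_⟩
        rcases List.mem_cons.1 hq with rfl | hq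
        · rw [hmq] at hm; simp at hm
        · exact h1 q hq hmq
    · rcases ih _ _ h.2 with ⟨c, hc, h1⟩ | ⟨m, hm, h1⟩
      · rw [List.mem_filter] at hc
        refine Or.inl ⟨c, hc.1, fun q hq hyq => ?_⟩
        rcases List.mem_cons.1 hq with rfl | hq
        · exact hc.2
        · exact h1 q hq hyq
      · refine Or.inr ⟨m, hm, fun q hq hmq => ?_⟩
        rcases List.mem_cons.1 hq with rfl | hq
        · exact hy
        · exact h1 q hq hmq

theorem K3 : allSub posD comps mins = true := by decide +kernel

lemma posD_spec : ∀ i < 70, dsg.testBit i = true → i ∈ posD := by decide +kernel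

lemma mins_len : ∀ m ∈ mins, (rows.zipIdx.filter (fun e => m.testBit e.2)).length = 6 ∨
    (rows.zipIdx.filter (fun e => m.testBit e.2)).length = 8 := by decide +kernel

/-- Every set of blocks of the design lies in a competing design or contains one of the listed
defining sets. -/
lemma dichotomy {S : Finset (Finset (Fin 8))} (hS : S ⊆ fam dsg) :
    (∃ c ∈ comps, S ⊆ fam c) ∨ (∃ m ∈ mins, fam m ⊆ S) := by
  let y : ℕ → Bool := fun i => decide (∃ e, rows[i]? = some e ∧ toSet e.1 ∈ S)
  have hlt : ∀ i e, rows[i]? = some e → i < 70 := by
    intro i e he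
    rw [← rows_length]
    exact (List.getElem?_eq_some_iff.1 he).1
  rcases allSub_sound y posD comps mins K3 with ⟨c, hc, h⟩ | ⟨m, hm, h⟩
  · refine Or.inl ⟨c, hc, fun b hb => ?_⟩
    obtain ⟨i, e, he, hM, rfl⟩ := mem_fam.1 (hS hb)
    rw [toSet_mem_fam he]
    apply h i (posD_spec i (hlt i e he) hM)
    simp only [y, decide_eq_true_eq]
    exact ⟨e, he, hb⟩
  · refine Or.inr ⟨m, hm, fun b hb => ?_⟩
    obtain ⟨i, e, he, hM, rfl⟩ := mem_fam.1 hb
    have h2 := congrArg (fun n => n.testBit i) (K4 m hm)
    simp only [Nat.testBit_and, hM, Bool.true_and] at h2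
    have h3 := h i (posD_spec i (hlt i e he) h2) hM
    simp only [y, decide_eq_true_eq] at h3
    obtain ⟨e', he', h4⟩ := h3
    rw [he] at he'
    cases he'
    exact h4

/-- A criterion for minimality. -/
lemma minimal_of {m : ℕ} (hm : m ∈ mins)
    (h : (List.range 70).all (fun i => !m.testBit i ||
      comps.any (fun c => ((m ^^^ 2 ^ i) &&& c) == (m ^^^ 2 ^ i))) = true) :
    IsMinimalDefiningSet 2 4 3 (fam dsg) (fam m) := by
  refine ⟨mins_defining m hm, ?_⟩
  intro S' hS' hdef
  obtain ⟨b, hb, hbS⟩ := exists_of_ssubset hS'
  obtain ⟨i, e, he, hM, rfl⟩ := mem_fam.1 hb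
  have hi : i < 70 := by
    rw [← rows_length]
    exact (List.getElem?_eq_some_iff.1 he).1
  have h1 := List.all_eq_true.1 h i (List.mem_range.2 hi)
  rw [hM] at h1
  simp only [Bool.not_true, Bool.false_or] at h1
  obtain ⟨c, hc, hcc⟩ := List.any_eq_true.1 h1
  have hcc' : (m ^^^ 2 ^ i) &&& c = (m ^^^ 2 ^ i) := by simpa using hcc
  have h2 : S' ⊆ fam (m ^^^ 2 ^ i) := by
    intro b' hb'
    obtain ⟨j, e', he', hM', rfl⟩ := mem_fam.1 (hS'.1 hb')
    rw [toSet_mem_fam he']
    rw [Nat.testBit_xor, hM', Nat.testBit_two_pow]
    have : i ≠ j := by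
      rintro rfl
      rw [he] at he'
      cases he'
      exact hbS hb'
    simp [this]
  exact comps_ne c hc (hdef.2 (fam c) (comps_design c hc) (h2.trans (fam_subset hcc')))

/-- **Main theorem.**  The `2-(8,4,3)` design of the fourteen planes of `AG(3,2)` has spectrum
`{6, 8}`; in particular there is a `2`-design whose spectrum has a hole. -/
theorem result : ∃ D : Finset (Finset (Fin 8)),
    IsDesign 2 4 3 D ∧ Spec 2 4 3 D = {6, 8} ∧ HasHole (Spec 2 4 3 D) := by
  have hspec : Spec 2 4 3 (fam dsg) = {6, 8} := by
    ext n
    constructor
    · rintro ⟨S, hS, rfl⟩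
      rcases dichotomy hS.1.1 with ⟨c, hc, hcc⟩ | ⟨m, hm, hsub⟩
      · exact absurd (hS.1.2 (fam c) (comps_design c hc) hcc) (comps_ne c hc)
      · have heq : fam m = S := by
          by_contra hne
          exact hS.2 (fam m) (lt_of_le_of_ne hsub hne) (mins_defining m hm)
        rw [← heq, card_fam]
        exact mins_len m hm
    · rintro (rfl | rfl)
      · refine ⟨fam (mins.getD 0 0), minimal_of (by decide +kernel) (by decide +kernel), ?_⟩
        rw [card_fam]; decide +kernel
      · refine ⟨fam (mins.getD 28 0), minimal_of (by decide +kernel) (by decide +kernel), ?_⟩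
        rw [card_fam]; decide +kernel
  refine ⟨fam dsg, dsg_design, hspec, ?_⟩
  rw [hspec]
  refine ⟨6, by simp, 8, by simp, 7, by norm_num, by norm_num, by simp⟩

end Pool.Agent.Results.MP_13ec72_co.Hole
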